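import Pool.Agent.L5helper25.GC.Val

/-!
There are no curves of low degree on generic complete intersections.
-/

set_option autoImplicit false
set_option linter.unusedSectionVars false
set_option linter.overlappingInstances false

open FF IntermediateField Pool.Agent.N162.BC

namespace Pool.Agent.L5helper25.GC

open Pool.Agent.W602.GT Pool.Agent.W603.LV
open Pool.Agent.TH145.GC (Rt)
open Pool.Agent.TH145.MG (DimLE)
open Pool.Agent.N162.HN (Crv)

/-- no curves of degree at most `ex + 1` -/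
theorem no_low {k0 Ω : Type} [Field k0] [Field Ω] [Algebra k0 Ω] [Algebra ℂ Ω] [IsAlgClosed Ω]
    [CharZero Ω] {M m ex : ℕ} {A : Type} [Fintype A] [DecidableEq A] {d : A → ℕ}
    (V : Set (MvPolynomial (Fin (M + 1 + 1)) k0)) (hVh : ∀ f ∈ V, ∃ e, f.IsHomogeneous e)
    (hV : DimLE k0 V m)
    (hd : 2 * m + 1 + ex ≤ ∑ a, d a + (Finset.univ : Finset A).card + 1)
    (F : A → MvPolynomial (Fin (M + 1 + 1)) Ω) (hF : ∀ a, (F a).IsHomogeneous (d a))
    (I0 : A → Fin (M + 1 + 1) →₀ ℕ) (h0 : ∀ a, (F a).coeff (I0 a) ≠ 0)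
    (hind : AlgebraicIndependent k0 fun p : Rt d I0 =>
      (F p.1).coeff p.2.1 / (F p.1).coeff (I0 p.1)) (C : Crv M Ω)
    {x : Fin (M + 1 + 1) → C.E} {c0 : Fin (M + 1 + 1)} (hc0 : x c0 = 1)
    (hgen : IntermediateField.adjoin Ω (Set.range x) = ⊤) (b : Fin (M + 1 + 1) → Ω)
    (hb : C.X 1 = ∑ l, algebraMap Ω C.E (b l) * x l)
    (hxV : ∀ f ∈ V, MvPolynomial.aeval x (MvPolynomial.map (algebraMap k0 Ω) f) = 0)
    (hxF : ∀ a, MvPolynomial.aeval x (F a) = 0) (hdeg : C.deg ≤ ex + 1) : False := by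
  classical
  let _ : Algebra ℂ C.E := ((algebraMap Ω C.E).comp (algebraMap ℂ Ω)).toAlgebra
  have _ : IsScalarTower ℂ Ω C.E := IsScalarTower.of_algebraMap_eq fun _ => rfl
  have hcE : CharZero C.E := charZero_of_injective_algebraMap (algebraMap Ω C.E).injective
  have hne0 : x c0 ≠ 0 := by rw [hc0]; exact one_ne_zero
  have hdiv : (fun j => x j / x c0) = x := by
    funext j
    rw [hc0, div_one]
  have hco : coords Ω x = ⊤ := by
    rw [Pool.Agent.N95.LQ.coords_eq hne0, hdiv, hgen]
  have halg : Algebra.IsAlgebraic (coords Ω x) C.E := by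
    rw [hco]
    infer_instance
  obtain ⟨ω, hω, hne, hreg⟩ := Pool.Agent.N111.GI.twisted (ex := ex) V hVh hV
    (Finset.univ : Finset A) Nat.zero_lt_one hd F hF I0 h0 hind
    (by rw [IsFF.trdeg (k := Ω) (K := C.E)]; norm_num) hne0 halg hxV (fun c _ => hxF c)
    (fun b hb => absurd (Finset.mem_univ b) hb)
  have htr := C.good.tr
  have hX0 : C.X 1 ≠ 0 := fun h => htr (by rw [h]; exact isAlgebraic_zero)
  -- the derivation
  obtain ⟨D, hD⟩ := exists_der (k := Ω) (K := C.E)
  have hD1 := der_ne_zero hD htr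
  obtain ⟨δ, hδ⟩ : ∃ δ : Derivation Ω C.E C.E, δ = (D (C.X 1))⁻¹ • D := ⟨_, rfl⟩
  have hδ1 : δ (C.X 1) = 1 := by
    rw [hδ, Derivation.smul_apply, smul_eq_mul, inv_mul_cancel₀ hD1]
  have hδ0 : δ ≠ 0 := by
    intro h
    rw [h] at hδ1
    exact zero_ne_one hδ1
  have hsm : ∀ c : C.E, ω (fun _ => c • δ) = c * ω fun _ => δ := by
    intro c
    have h1 := hω (Matrix.of fun _ _ => c) (fun _ => δ)
    simpa using h1
  have hωδ : (ω fun _ => δ) ≠ 0 := by
    intro h
    obtain ⟨D', hD'⟩ := hne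
    apply hD'
    obtain ⟨c, hc⟩ := der_smul hδ0 (D' := D' 0)
    have h1 : D' = fun _ => c • δ := by
      funext i
      rw [Subsingleton.elim i 0, hc]
    rw [h1, hsm, h, mul_zero]
  -- the local computation
  have key : ∀ (v : Place Ω C.E) (τ : C.E) (c : C.E), 0 < v.ord τ → c * δ τ = 1 →
      ∀ f : Fin ex → Fin (M + 1 + 1), Ge v 1 (τ * c * ((∏ j, x (f j)) * ω fun _ => δ)) := by
    intro v τ c hτ hc f
    obtain ⟨π, hπ0, hπ⟩ := v.surj
    let δc : Derivation ℂ C.E C.E :=
      { toFun := fun g => c * δ g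
        map_add' := fun a b => by rw [map_add, mul_add]
        map_smul' := fun a g => by
          rw [RingHom.id_apply, ← algebraMap_smul Ω a g, Derivation.map_smul, mul_smul_comm,
            algebraMap_smul]
        map_one_eq_zero' := by
          change c * δ 1 = 0
          rw [Derivation.map_one_eq_zero, mul_zero]
        leibniz' := fun a b => by
          change c * δ (a * b) = a • (c * δ b) + b • (c * δ a)
          rw [Derivation.leibniz]
          simp only [smul_eq_mul]
          ring }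
    have h1 := Pool.Agent.N774.GP.reg_log Pool.Agent.N162.CV.fDERb v hτ δc (fun a => by
      change c * δ (algebraMap Ω C.E a) = 0
      rw [Derivation.map_algebraMap, mul_zero]) hc
    have hDR : DerReg v ((π⁻¹ * τ * c) • δ) := by
      intro g hg
      have h2 : Ge v 1 (τ * (c * δ g)) := h1 g hg
      change Ge v 0 (π⁻¹ * τ * c * δ g)
      refine Ge.of_mul' (h := π) (m := 1) hπ0 hπ ?_
      have h3 : π * (π⁻¹ * τ * c * δ g) = τ * (c * δ g) := by
        field_simp
      rw [h3]
      simpa using h2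
    have h2 := (hreg f v (divisorial_one v)).2 (by
      rintro ⟨b, hb, -⟩
      exact hb (Finset.mem_univ b)) (fun _ => (π⁻¹ * τ * c) • δ) fun _ => hDR
    have h3 : Ge v 0 ((∏ j, x (f j) / x c0) * ω fun _ => (π⁻¹ * τ * c) • δ) := h2
    rw [hsm] at h3
    have h4 : Ge v 1 π := Or.inr (by rw [hπ])
    have h5 := h4.mul h3
    have h6 : π * ((∏ j, x (f j) / x c0) * (π⁻¹ * τ * c * ω fun _ => δ)) =
        τ * c * ((∏ j, x (f j)) * ω fun _ => δ) := by
      simp only [hc0, div_one]
      field_simp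
    rw [h6] at h5
    simpa using h5
  refine hωδ (Pool.Agent.N162.GP.fGET M ex Ω C.E C.X C.good hdeg _ (fun v a hv => ?_)
    fun v hv => ?_)
  · have hτ0 : C.X 1 - algebraMap Ω C.E a ≠ 0 := by
      intro h
      apply htr
      rw [sub_eq_zero.1 h]
      exact isAlgebraic_algebraMap a
    have hτ : 0 < v.ord (C.X 1 - algebraMap Ω C.E a) := by
      rcases hv with h | h
      · exact absurd h hτ0
      · omega
    have h1 := key v _ 1 hτ (by
      rw [map_sub, hδ1, Derivation.map_algebraMap, sub_zero, one_mul]) fun _ => c0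
    simpa [hc0] using h1
  · have hτ : 0 < v.ord (C.X 1)⁻¹ := by
      rw [v.ord_inv]
      omega
    have h1 := key v (C.X 1)⁻¹ (-(C.X 1) ^ 2) hτ (by
      rw [Derivation.leibniz_inv, hδ1]
      simp only [smul_eq_mul]
      field_simp)
    have h2 : (C.X 1) ^ (ex + 1) * (ω fun _ => δ) = -∑ f : Fin ex → Fin (M + 1 + 1),
        algebraMap Ω C.E (∏ j, b (f j)) * ((C.X 1)⁻¹ * -(C.X 1) ^ 2 *
          ((∏ j, x (f j)) * ω fun _ => δ)) := by
      have h3 : (C.X 1) ^ ex = ∑ f : Fin ex → Fin (M + 1 + 1),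
          algebraMap Ω C.E (∏ j, b (f j)) * ∏ j, x (f j) := by
        conv_lhs => rw [hb, ← Fin.prod_const, Finset.prod_univ_sum, Fintype.piFinset_univ]
        refine Finset.sum_congr rfl fun f _ => ?_
        rw [map_prod, ← Finset.prod_mul_distrib]
      have h4 : (C.X 1)⁻¹ * -(C.X 1) ^ 2 = -(C.X 1) := by field_simp
      simp only [h4]
      rw [pow_succ, h3, Finset.sum_mul, Finset.sum_mul, ← Finset.sum_neg_distrib]
      refine Finset.sum_congr rfl fun f _ => ?_
      ring
    rw [h2]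
    refine Ge.neg (Ge.sum _ _ fun f _ => ?_)
    have h5 := (Ge.const (P := v) (∏ j, b (f j))).mul (h1 f)
    simpa using h5

end Pool.Agent.L5helper25.GC
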