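import Pool.Agent.L5helper25.GC.QSep

/-!
Forms on the varieties with multi-valued maps to generic complete intersections: many values.
-/

set_option autoImplicit false
set_option linter.unusedSectionVars false
set_option linter.overlappingInstances false

open FF IntermediateField Pool.Agent.N162.BC

namespace Pool.Agent.L5helper25.GC

open Pool.Agent.N95.LQ
open Pool.Agent.W602.GT

variable {k : Type} [Field k] [Algebra k ℂ]

/-- The numerical condition for the separation of `s` points by forms of degree `e`: `s ≤ e + 1`, or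
`s < (N + 1) (e + 2 - N)` for a number `N` which is not too large, such that all equations have degree
at most `e + 2 - N`. -/
structure Separates (U : Pair k ℂ) (e N s : ℕ) : Prop where
  few : s < (N + 1) * (e + 2 - N)
  low : N = 0 ∨ (2 ≤ U.n ∧ 7 * N + 4 ≤ e ∧ U.n * N ≤ e + U.n ∧ 2 * U.m + N ≤ U.size + 1 ∧
    (∀ a, U.d a + N ≤ e + 2) ∧ ∀ f ∈ U.V, f.totalDegree + N ≤ e + 2)

theorem Separates.mono {U : Pair k ℂ} {e e' N s s' : ℕ} (h : Separates U e N s) (he : e ≤ e')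
    (hs : s' ≤ s) : Separates U e' N s' := by
  refine ⟨?_, ?_⟩
  · exact lt_of_le_of_lt hs (lt_of_lt_of_le h.few (Nat.mul_le_mul_left _ (by omega)))
  · rcases h.low with h0 | ⟨h1, h2, h3, h4, h5, h6⟩
    · exact Or.inl h0
    · exact Or.inr ⟨h1, by omega, by omega, h4, fun a => by have := h5 a; omega,
        fun f hf => by have := h6 f hf; omega⟩

open Pool.Agent.TH145.GC (Rt) in
open Pool.Agent.TH145.MG (DimLE) in
theorem sep_quad' {k0 K Ω : Type} [Field k0] [Algebra k0 ℂ] [Field K] [Algebra ℂ K] [Field Ω]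
    [Algebra ℂ Ω] [Algebra k0 Ω] [IsScalarTower k0 ℂ Ω] [IsAlgClosed Ω]
    {n m ex e N D : ℕ} {A : Type} [Fintype A] [DecidableEq A] {d : A → ℕ}
    (V : Set (MvPolynomial (Fin (n + 1)) k0)) (hVh : ∀ f ∈ V, ∃ e ≤ D, f.IsHomogeneous e)
    (hV : DimLE k0 V m)
    (hd : 2 * m + 1 + ex ≤ ∑ a, d a + (Finset.univ : Finset A).card + 1)
    (F : A → MvPolynomial (Fin (n + 1)) ℂ) (hF : ∀ a, (F a).IsHomogeneous (d a))
    (hdD : ∀ a, d a ≤ D)
    (I0 : A → Fin (n + 1) →₀ ℕ) (h0 : ∀ a, (F a).coeff (I0 a) ≠ 0)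
    (hind : AlgebraicIndependent k0 fun p : Rt d I0 =>
      (F p.1).coeff p.2.1 / (F p.1).coeff (I0 p.1))
    {x : Fin (n + 1) → K} {c0 : Fin (n + 1)} (hc0 : x c0 = 1)
    (hgen : IntermediateField.adjoin ℂ (Set.range x) = ⊤)
    (hxV : ∀ f ∈ V, MvPolynomial.aeval x (MvPolynomial.map (algebraMap k0 ℂ) f) = 0)
    (hxF : ∀ a, MvPolynomial.aeval x (F a) = 0)
    (hn : 2 ≤ n) (hm : 7 * N + 4 ≤ e) (hN : n * N ≤ e + n) (hD : D + N ≤ e + 2)
    (hNe : N ≤ ex + 1) (S : Finset (K →ₐ[ℂ] Ω)) (lam : (K →ₐ[ℂ] Ω) → Ω) (hS : S.Nonempty)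
    (hlam : ∀ σ ∈ S, lam σ ≠ 0) (hcard : S.card < (N + 1) * (e + 2 - N)) :
    ¬ ∀ f : Fin e → Fin (n + 1), ∑ σ ∈ S, lam σ * σ (∏ j, x (f j)) = 0 := by
  obtain ⟨M, rfl⟩ : ∃ M, n = M + 1 := ⟨n - 1, by omega⟩
  exact sep_quad V hVh hV hd F hF hdD I0 h0 hind hc0 hgen hxV hxF (by omega) hm (by omega) hD hNe
    S lam hS hlam hcard

/-- separation -/
theorem sep_pair (U : Pair k ℂ) (hC : ∀ a, a ∈ U.C) {K Ω : Type} [Field K] [Algebra ℂ K] [Field Ω]
    [Algebra ℂ Ω] [IsAlgClosed Ω] {x : Fin (U.n + 1) → K} (hx : U.Point x) {c0 : Fin (U.n + 1)}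
    (hc0 : x c0 = 1) (hgen : IntermediateField.adjoin ℂ (Set.range x) = ⊤) {e N : ℕ}
    (S : Finset (K →ₐ[ℂ] Ω)) (hsep : Separates U e N S.card) (lam : (K →ₐ[ℂ] Ω) → Ω)
    (hS : S.Nonempty) (hlam : ∀ σ ∈ S, lam σ ≠ 0) :
    ¬ ∀ f : Fin e → Fin (U.n + 1), ∑ σ ∈ S, lam σ * σ (∏ j, x (f j)) = 0 := by
  classical
  have hne : x c0 ≠ 0 := by rw [hc0]; exact one_ne_zero
  have hdiv : (fun j => x j / x c0) = x := by
    funext j
    rw [hc0, div_one]
  rcases hsep.low with h0 | ⟨h1, h2, h3, h4, h5, h6⟩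
  · subst h0
    have h7 := sep_mono (ex := e) hne (by rw [hdiv]; exact hgen) S lam hS hlam (by
      have := hsep.few
      omega)
    intro h
    refine h7 fun f => ?_
    simp only [hc0, div_one]
    exact h f
  · have hCu : U.C = Finset.univ := Finset.eq_univ_iff_forall.2 hC
    have hsz : U.size = ∑ a, U.d a + (Finset.univ : Finset U.A).card := by
      unfold Pair.size
      rw [hCu]
    rcases Nat.eq_zero_or_pos N with hN0 | hN0
    · subst hN0
      have h8 := sep_mono (ex := e) hne (by rw [hdiv]; exact hgen) S lam hS hlam (by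
        have := hsep.few
        omega)
      intro h
      refine h8 fun f => ?_
      simp only [hc0, div_one]
      exact h f
    rw [hsz] at h4
    refine sep_quad' (k0 := algebraicClosure k ℂ) (m := U.m) (ex := ∑ a, U.d a +
      (Finset.univ : Finset U.A).card - 2 * U.m) (N := N) (D := e + 2 - N) U.V (fun f hf => ?_)
      U.V_dim (by omega) U.F U.F_form (fun a => by have := h5 a; omega) U.I₀ U.coeff_ne
      U.generic.algebraicClosure hc0 hgen hx.mem_V (fun a => hx.mem_C a (hC a)) h1 h2 h3 (by omega)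
      (by omega) S lam hS hlam hsep.few
    by_cases hf0 : f = 0
    · exact ⟨0, by omega, by rw [hf0]; exact MvPolynomial.isHomogeneous_zero _ _ _⟩
    · obtain ⟨e', he'⟩ := U.V_form f hf
      have h9 := h6 f hf
      have h10 := he'.totalDegree hf0
      exact ⟨e', by omega, he'⟩

/-- **Forms on the varieties with multi-valued maps.** -/
theorem pair_formsQ (U : Pair k ℂ) (hC : ∀ a, a ∈ U.C) {L E : Type} [Field L] [Algebra ℂ L]
    [Algebra.EssFiniteType ℂ L] [Field E] [Algebra ℂ E] [Algebra L E] [IsScalarTower ℂ L E]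
    [FiniteDimensional L E] {w : ℕ} (hL : Algebra.trdeg ℂ L = w) {x : Fin (U.n + 1) → E}
    (hx : U.Point x) {b : ℕ} (hb : 0 < b) (htr : Algebra.trdeg ℂ (coords ℂ x) = b) {q e N : ℕ}
    (hd : 2 * U.m + 1 + e ≤ U.size + b) (hsep : Separates U e N (q * Module.finrank L E)) :
    ∃ η : Fin q → AlternatingMap L (Derivation ℂ L L) L (Fin b), LinearIndependent ℂ η ∧
      ∀ j, ∀ P : Place ℂ L, Divisorial w P → ∀ D : Fin b → Derivation ℂ L L,
        (∀ i, DerReg P (D i)) → P.Reg (η j D) := by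
  classical
  obtain ⟨c0, hc0'⟩ := Function.ne_iff.1 hx.ne
  have hc0 : x c0 ≠ 0 := hc0'
  let x0 : Fin (U.n + 1) → coords ℂ x := fun j =>
    ⟨x j / x c0, by rw [Pool.Agent.N95.LQ.coords_eq hc0]; exact subset_adjoin ℂ _ ⟨j, rfl⟩⟩
  have h0c : x0 c0 = 1 := Subtype.ext (div_self hc0)
  have h00 : x0 c0 ≠ 0 := by rw [h0c]; exact one_ne_zero
  have hdiv : (fun j => x0 j / x0 c0) = x0 := by
    funext j
    rw [h0c, div_one]
  have hpt : U.Point x0 := by
    rw [← Pair.point_map (coords ℂ x).val]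
    have h1 := hx.smul (inv_ne_zero hc0)
    have h2 : (fun j => (x c0)⁻¹ * x j) = fun j => (coords ℂ x).val (x0 j) := by
      funext j
      change _ = x j / x c0
      rw [div_eq_inv_mul]
    rw [h2] at h1
    exact h1
  have hgen0 : IntermediateField.adjoin ℂ (Set.range x0) = ⊤ := by
    apply IntermediateField.map_injective (coords ℂ x).val
    rw [← AlgHom.fieldRange_eq_map, IntermediateField.fieldRange_val,
      IntermediateField.adjoin_map, ← Set.range_comp]
    exact (Pool.Agent.N95.LQ.coords_eq hc0).symm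
  have hgen : IntermediateField.adjoin ℂ (Set.range fun j => x0 j / x0 c0) = ⊤ := by
    rw [hdiv]
    exact hgen0
  have hess : Algebra.EssFiniteType ℂ (coords ℂ x) := Pool.Agent.N111.GJ.ess_of_adjoin hgen0
  obtain ⟨ω, h1, h2, h3⟩ := adj_pair U hC hpt h00 hgen hb htr (ex := e) (by omega)
  refine forms_gen (N := q * Module.finrank L E) (K := coords ℂ x) (R := E) htr hb h1 h2
    (fun f : Fin e → Fin (U.n + 1) => ∏ j, x0 (f j) / x0 c0) h3
    (fun Ω _ _ _ S lam hS hl hc h => ?_) hL le_rfl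
  refine sep_pair U hC hpt h0c hgen0 S (hsep.mono le_rfl hc) lam hS hl fun f => ?_
  have h4 := h f
  simpa [h0c] using h4

/-- **Multi-valued maps.** -/
theorem valued_formsQ (U : Pair k ℂ) (hC : ∀ a, a ∈ U.C) {L Ω : Type} [Field L] [Algebra ℂ L]
    [Algebra.EssFiniteType ℂ L] [Field Ω] [Algebra ℂ Ω] [Algebra L Ω] [IsScalarTower ℂ L Ω]
    {w : ℕ} (hL : Algebra.trdeg ℂ L = w) {x : Fin (U.n + 1) → Ω} (hx : U.Point x) {r : ℕ}
    (hfin : FiniteDimensional L (coords L x)) (hr : Module.finrank L (coords L x) ≤ r)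
    {b : ℕ} (htr : Algebra.trdeg ℂ (coords ℂ x) = b) (hb : 0 < b) {q e N : ℕ}
    (hd : 2 * U.m + 1 + e ≤ U.size + b) (hsep : Separates U e N (q * r)) :
    ∃ η : Fin q → AlternatingMap L (Derivation ℂ L L) L (Fin b), LinearIndependent ℂ η ∧
      ∀ j, ∀ P : Place ℂ L, Divisorial w P → ∀ D : Fin b → Derivation ℂ L L,
        (∀ i, DerReg P (D i)) → P.Reg (η j D) := by
  classical
  obtain ⟨c0, hc0'⟩ := Function.ne_iff.1 hx.ne
  have hc0 : x c0 ≠ 0 := hc0'
  let E := coords L x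
  let x1 : Fin (U.n + 1) → E := fun j => ⟨x j / x c0, subset_adjoin L _ ⟨j, c0, hc0, rfl⟩⟩
  let ψ : E →ₐ[ℂ] Ω := E.val.restrictScalars ℂ
  have h1c : x1 c0 = 1 := Subtype.ext (div_self hc0)
  have h10 : x1 c0 ≠ 0 := by rw [h1c]; exact one_ne_zero
  have hpt : U.Point x1 := by
    rw [← Pair.point_map ψ]
    have h1 := hx.smul (inv_ne_zero hc0)
    have h2 : (fun j => (x c0)⁻¹ * x j) = fun j => ψ (x1 j) := by
      funext j
      change _ = x j / x c0
      rw [div_eq_inv_mul]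
    rw [h2] at h1
    exact h1
  have hmap : (coords ℂ x1).map ψ = coords ℂ x := by
    rw [coords_map ψ h10]
    exact coords_smul hc0
  have htr1 : Algebra.trdeg ℂ (coords ℂ x1) = b := by
    rw [← htr, ← hmap]
    exact ((coords ℂ x1).equivMap ψ).trdeg_eq
  exact pair_formsQ U hC (E := E) hL hpt hb htr1 hd
    (hsep.mono le_rfl (Nat.mul_le_mul_left q hr))

end Pool.Agent.L5helper25.GC
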