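import Pool.Agent.L5helper25.GC.Quad

/-!
Many points on the closed subvarieties of generic complete intersections are separated by forms.
-/

set_option autoImplicit false
set_option linter.unusedSectionVars false
set_option linter.overlappingInstances false

open FF IntermediateField Pool.Agent.N162.BC MvPolynomial

namespace Pool.Agent.L5helper25.GC

open Pool.Agent.W602.GT Pool.Agent.W603.LV
open Pool.Agent.TH145.GC (Rt)
open Pool.Agent.TH145.MG (DimLE)
open Pool.Agent.N162.HN (Crv exists_idx)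

theorem sep_quad {k0 K Ω : Type} [Field k0] [Algebra k0 ℂ] [Field K] [Algebra ℂ K] [Field Ω]
    [Algebra ℂ Ω] [Algebra k0 Ω] [IsScalarTower k0 ℂ Ω] [IsAlgClosed Ω]
    {M m ex e N D : ℕ} {A : Type} [Fintype A] [DecidableEq A] {d : A → ℕ}
    (V : Set (MvPolynomial (Fin (M + 1 + 1)) k0)) (hVh : ∀ f ∈ V, ∃ e ≤ D, f.IsHomogeneous e)
    (hV : DimLE k0 V m)
    (hd : 2 * m + 1 + ex ≤ ∑ a, d a + (Finset.univ : Finset A).card + 1)
    (F : A → MvPolynomial (Fin (M + 1 + 1)) ℂ) (hF : ∀ a, (F a).IsHomogeneous (d a))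
    (hdD : ∀ a, d a ≤ D)
    (I0 : A → Fin (M + 1 + 1) →₀ ℕ) (h0 : ∀ a, (F a).coeff (I0 a) ≠ 0)
    (hind : AlgebraicIndependent k0 fun p : Rt d I0 =>
      (F p.1).coeff p.2.1 / (F p.1).coeff (I0 p.1))
    {x : Fin (M + 1 + 1) → K} {c0 : Fin (M + 1 + 1)} (hc0 : x c0 = 1)
    (hgen : IntermediateField.adjoin ℂ (Set.range x) = ⊤)
    (hxV : ∀ f ∈ V, aeval x (map (algebraMap k0 ℂ) f) = 0) (hxF : ∀ a, aeval x (F a) = 0)
    (hM : 1 ≤ M) (hm : 7 * N + 4 ≤ e) (hN : (M + 1) * N < e + M + 2) (hD : D + N ≤ e + 2)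
    (hNe : N ≤ ex + 1) (S : Finset (K →ₐ[ℂ] Ω)) (lam : (K →ₐ[ℂ] Ω) → Ω) (hS : S.Nonempty)
    (hlam : ∀ σ ∈ S, lam σ ≠ 0) (hcard : S.card < (N + 1) * (e + 2 - N)) :
    ¬ ∀ f : Fin e → Fin (M + 1 + 1), ∑ σ ∈ S, lam σ * σ (∏ j, x (f j)) = 0 := by
  classical
  intro hrel
  have hcΩ : CharZero Ω := charZero_of_injective_algebraMap (algebraMap ℂ Ω).injective
  let π : Equiv.Perm (Fin (M + 1 + 1)) := Equiv.swap 0 c0
  have hππ : ∀ j, π (π j) = j := fun j => Equiv.swap_apply_self 0 c0 j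
  have hπ0 : π 0 = c0 := Equiv.swap_apply_left 0 c0
  have hπc : π c0 = 0 := Equiv.swap_apply_right 0 c0
  obtain ⟨C, X', b, h1, h2, h3, h4, h5⟩ := quad_core (M := M) (e := e) (N := N) (D := D)
    (x := fun j => x (π j)) hM hm hN hD (by rw [hπ0, hc0]) (by
      have h6 : Set.range (fun j => x (π j)) = Set.range x := π.surjective.range_comp x
      rw [h6]
      exact hgen) S lam hS hlam hcard (fun P hP => by
      have h6 : aeval (fun j => x (π j)) P = ∑ I ∈ P.support,
          algebraMap ℂ K (P.coeff I) * ∏ i, x (π i) ^ I i := by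
        rw [aeval_def, eval₂_eq']
      have h7 : ∀ σ : K →ₐ[ℂ] Ω, lam σ * σ (aeval (fun j => x (π j)) P) = ∑ I ∈ P.support,
          algebraMap ℂ Ω (P.coeff I) * (lam σ * σ (∏ i, x (π i) ^ I i)) := by
        intro σ
        rw [h6, map_sum, Finset.mul_sum]
        refine Finset.sum_congr rfl fun I _ => ?_
        rw [map_mul, AlgHom.commutes]
        ring
      simp only [h7]
      rw [Finset.sum_comm]
      refine Finset.sum_eq_zero fun I hI => ?_
      rw [← Finset.mul_sum]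
      have h8 : I.degree = e := by
        have h9 := hP (mem_support_iff.1 hI)
        rw [← h9, Finsupp.degree_eq_weight_one]
        rfl
      obtain ⟨g, hg⟩ := exists_idx (n := M) (Ω := K) e I h8
      have h10 := hrel fun j => π (g j)
      rw [hg fun j => x (π j)] at h10
      rw [h10, mul_zero])
  let X'' : Fin (M + 1 + 1) → C.E := fun j => X' (π j)
  have key : ∀ (f : MvPolynomial (Fin (M + 1 + 1)) ℂ) (d : ℕ), d ≤ D → f.IsHomogeneous d →
      aeval x f = 0 → aeval X'' (map (algebraMap ℂ Ω) f) = 0 := by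
    intro f d hd hf hfx
    have h6 := h5 (rename π f) d hd (hf.rename_isHomogeneous) (by
      rw [aeval_rename]
      have h7 : (fun j => x (π j)) ∘ π = x := by
        funext j
        change x (π (π j)) = x j
        rw [hππ]
      rw [h7]
      exact hfx)
    rw [map_rename, aeval_rename] at h6
    exact h6
  have hst : ∀ c : k0, algebraMap k0 Ω c = algebraMap ℂ Ω (algebraMap k0 ℂ c) := fun c =>
    IsScalarTower.algebraMap_apply k0 ℂ Ω c
  refine no_low V (fun f hf => ?_) hV hd (fun a => map (algebraMap ℂ Ω) (F a))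
    (fun a => (hF a).map _) I0 (fun a => ?_) ?_ C (x := X'') (c0 := c0) ?_ ?_
    (fun l => ((b (π l) : ℚ) : Ω)) ?_ (fun f hf => ?_) (fun a => ?_) (h4.trans hNe)
  · obtain ⟨e', -, h⟩ := hVh f hf
    exact ⟨e', h⟩
  · rw [coeff_map]
    exact (map_ne_zero _).2 (h0 a)
  · have h6 := hind.map' (f := IsScalarTower.toAlgHom k0 ℂ Ω) (algebraMap ℂ Ω).injective
    have h7 : (⇑(IsScalarTower.toAlgHom k0 ℂ Ω) ∘ fun p : Rt d I0 =>
        (F p.1).coeff p.2.1 / (F p.1).coeff (I0 p.1)) = fun p : Rt d I0 =>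
        (map (algebraMap ℂ Ω) (F p.1)).coeff p.2.1 /
          (map (algebraMap ℂ Ω) (F p.1)).coeff (I0 p.1) := by
      funext p
      change algebraMap ℂ Ω ((F p.1).coeff p.2.1 / (F p.1).coeff (I0 p.1)) = _
      rw [map_div₀, coeff_map, coeff_map]
    rw [h7] at h6
    exact h6
  · change X' (π c0) = 1
    rw [hπc, h1]
  · have h6 : Set.range X'' = Set.range X' := π.surjective.range_comp X'
    rw [h6]
    exact h2
  · rw [h3, ← Equiv.sum_comp π]
    refine Finset.sum_congr rfl fun l _ => ?_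
    rw [map_ratCast]
  · obtain ⟨e', he', h⟩ := hVh f hf
    have h6 := key (map (algebraMap k0 ℂ) f) e' he' (h.map _) (hxV f hf)
    rw [MvPolynomial.map_map] at h6
    have h7 : (algebraMap ℂ Ω).comp (algebraMap k0 ℂ) = algebraMap k0 Ω :=
      (IsScalarTower.algebraMap_eq k0 ℂ Ω).symm
    rw [h7] at h6
    exact h6
  · exact key (F a) (d a) (hdD a) (hF a) (hxF a)

end Pool.Agent.L5helper25.GC
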