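import Pool.Agent.L5helper25.GC.Low

/-!
Many points on generic complete intersections are separated by forms.
-/

set_option autoImplicit false
set_option linter.unusedSectionVars false
set_option linter.overlappingInstances false

open FF IntermediateField Pool.Agent.N162.BC MvPolynomial

namespace Pool.Agent.L5helper25.GC

open Pool.Agent.W602.GT Pool.Agent.W603.LV
open Pool.Agent.TH145.GC (Rt)
open Pool.Agent.TH145.MG (DimLE)
open Pool.Agent.N162.HN (Crv Good At mu pr act pt Prj sub sub_hom pt_inj pt_act pt_aeval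
  adjoin_act act_act)
open Pool.Agent.N162.GP (rel_ext)

/-- an equation of low degree vanishes on a curve with many of its points -/
theorem van {M D : ℕ} {K Ω : Type} [Field K] [Algebra ℂ K] [Field Ω] [Algebra ℂ Ω] [IsAlgClosed Ω]
    {x : Fin (M + 2) → K} (C : Crv M Ω) (T : Finset (Fin (M + 2) → Ω))
    (hT : ∀ p ∈ T, C.On p ∧ ∃ σ : K →ₐ[ℂ] Ω, p = pt x σ) (hcard : C.deg * D < T.card)
    (Q : MvPolynomial (Fin (M + 2)) ℂ) (hQ : Q.totalDegree ≤ D) (hQx : aeval x Q = 0) :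
    aeval C.X (map (algebraMap ℂ Ω) Q) = 0 := by
  have hcΩ : CharZero Ω := charZero_of_injective_algebraMap (algebraMap ℂ Ω).injective
  have hX := C.good
  by_contra hne
  obtain ⟨c1, c2, c3, c4⟩ := Pool.Agent.N162.HN.fC1 M Ω C.E C.X hX
    (aeval C.X (map (algebraMap ℂ Ω) Q)) D hne
    (fun v hv => Pool.Agent.N340.GP.ge_aeval (hX.fin v hv) _)
    (fun v hv => Pool.Agent.N340.GP.ge_pole hX
      ((Pool.Agent.N340.GP.totalDegree_map_le' _ _).trans hQ) v hv)
  have h2 : ∀ p ∈ T, 1 ≤ mu C.X (aeval C.X (map (algebraMap ℂ Ω) Q)) p := by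
    intro p hp
    obtain ⟨⟨v, hv⟩, σ, rfl⟩ := hT p hp
    have h3 : Ge v 1 (aeval C.X (map (algebraMap ℂ Ω) Q)) := by
      have h4 := Pool.Agent.N340.GP.ge_aeval_sub hv (map (algebraMap ℂ Ω) Q)
      rwa [Pool.Agent.N340.GP.pt_aeval, hQx, map_zero, map_zero, sub_zero] at h4
    have h5 : 0 < v.ord (aeval C.X (map (algebraMap ℂ Ω) Q)) := by
      rcases h3 with h3 | h3
      · exact absurd h3 hne
      · omega
    have h6 := (c2 (pt x σ)).2 ⟨v, hv, h5⟩
    have h7 := c1 (pt x σ)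
    omega
  have h3 := Finset.sum_le_sum h2
  rw [Finset.sum_const, nsmul_eq_mul, mul_one] at h3
  have h4 := h3.trans (c4 T)
  have h5 : T.card ≤ Module.finrank (IntermediateField.adjoin Ω {C.X 1}) C.E * D := by
    exact_mod_cast h4
  exact absurd hcard (not_lt.2 h5)

/-- a curve of low degree on the equations -/
theorem quad_core {M e N D : ℕ} {K Ω : Type} [Field K] [Algebra ℂ K] [Field Ω] [Algebra ℂ Ω]
    [IsAlgClosed Ω] {x : Fin (M + 2) → K} (hM : 1 ≤ M) (hm : 7 * N + 4 ≤ e)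
    (hN : (M + 1) * N < e + M + 2) (hD : D + N ≤ e + 2) (hx0 : x 0 = 1)
    (hgen : IntermediateField.adjoin ℂ (Set.range x) = ⊤) (S : Finset (K →ₐ[ℂ] Ω))
    (lam : (K →ₐ[ℂ] Ω) → Ω) (hS : S.Nonempty) (hlam : ∀ σ ∈ S, lam σ ≠ 0)
    (hcard : S.card < (N + 1) * (e + 2 - N))
    (hrel : ∀ P : MvPolynomial (Fin (M + 2)) ℂ, P.IsHomogeneous e →
      ∑ σ ∈ S, lam σ * σ (aeval x P) = 0) :
    ∃ (C : Crv M Ω) (X' : Fin (M + 2) → C.E) (b : Fin (M + 2) → ℚ), X' 0 = 1 ∧
      IntermediateField.adjoin Ω (Set.range X') = ⊤ ∧ C.X 1 = ∑ l, (b l : C.E) * X' l ∧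
      C.deg ≤ N ∧ ∀ (f : MvPolynomial (Fin (M + 2)) ℂ) (d : ℕ), d ≤ D → f.IsHomogeneous d →
        aeval x f = 0 → aeval X' (map (algebraMap ℂ Ω) f) = 0 := by
  classical
  have hcΩ : CharZero Ω := charZero_of_injective_algebraMap (algebraMap ℂ Ω).injective
  have hcK : CharZero K := charZero_of_injective_algebraMap (algebraMap ℂ K).injective
  obtain ⟨B, B', A, hBB', hB'B, hB0, hA, -⟩ := Pool.Agent.N162.HN.fB1 M Ω (K →ₐ[ℂ] Ω) S (pt x) lam
    e N (X 1) hM hS (fun σ _ => by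
      change σ (x 0) = 1
      rw [hx0, map_one]) (pt_inj hgen).injOn hlam (rel_ext hrel) hm hcard
    ⟨Pi.single 1 1, by simp, by simp⟩
  obtain ⟨y, hy⟩ : ∃ y, y = act B x := ⟨_, rfl⟩
  have hy0 : y 0 = 1 := by
    rw [hy]
    unfold act
    rw [Finset.sum_eq_single 0]
    · rw [hB0, if_pos rfl, hx0]
      simp
    · intro j _ hj
      rw [hB0, if_neg hj]
      simp
    · intro h
      exact absurd (Finset.mem_univ _) h
  have hgy : IntermediateField.adjoin ℂ (Set.range y) = ⊤ := by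
    rw [hy]
    exact adjoin_act hB'B hgen
  have hpt : ∀ σ : K →ₐ[ℂ] Ω, act B (pt x σ) = pt y σ := fun σ => by rw [hy, pt_act]
  simp only [hpt] at hA
  have hinj : Function.Injective (pt y : (K →ₐ[ℂ] Ω) → Fin (M + 2) → Ω) := pt_inj hgy
  have hrely : ∀ P : MvPolynomial (Fin (M + 2)) Ω, P.IsHomogeneous e →
      ∑ σ ∈ S, lam σ * eval (pt y σ) P = 0 := rel_ext fun P hP => by
    rw [hy]
    have h1 := hrel (sub B P) (sub_hom hP B)
    simp only [Pool.Agent.N162.HN.aeval_sub] at h1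
    exact h1
  obtain ⟨S', hS'⟩ : ∃ S', S' = S.image (pt y : (K →ₐ[ℂ] Ω) → Fin (M + 2) → Ω) := ⟨_, rfl⟩
  obtain ⟨lam', hlam'⟩ : ∃ lam' : (Fin (M + 2) → Ω) → Ω, ∀ σ : K →ₐ[ℂ] Ω, lam' (pt y σ) = lam σ :=
    ⟨Function.extend (pt y) lam 0, fun σ => hinj.extend_apply _ _ _⟩
  have hmem : ∀ p ∈ S', ∃ σ ∈ S, pt y σ = p := fun p hp => by
    rw [hS'] at hp
    exact Finset.mem_image.1 hp
  have hS0 : ∀ p ∈ S', p 0 = 1 := by
    intro p hp
    obtain ⟨σ, _, rfl⟩ := hmem p hp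
    change σ (y 0) = 1
    rw [hy0, map_one]
  obtain ⟨r, C, h1, h2, h3, h4⟩ := Pool.Agent.N162.HN.fCUR M Ω A hM (fun l => (hA l).1)
    (fun l => (hA l).2.1)
  obtain ⟨t₀, G, hG, hGi⟩ := Pool.Agent.N162.GP.fPRJ M r Ω A C hM
    (fun l => ⟨(hA l).1, (hA l).2.1⟩) ⟨h1, h2, h3, h4⟩ S' hS0
  obtain ⟨i, T, hTS, hTne, hTon, hgi, hTc⟩ := Pool.Agent.N162.GP.fGM M e N r Ω S' lam' _ _ A t₀ G
    hM hm hN (by rw [hS']; exact hS.image _) (by
      rw [hS']
      exact lt_of_le_of_lt Finset.card_image_le hcard) (fun p hp => ⟨hS0 p hp, by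
        obtain ⟨σ, hσ, rfl⟩ := hmem p hp
        rw [hlam']
        exact hlam σ hσ⟩) (fun P hP => by
        rw [hS', Finset.sum_image fun a _ b _ hab => hinj hab]
        simp only [hlam']
        exact hrely P hP) (fun l => ⟨(hA l).1, (hA l).2.1, (hA l).2.2.1, fun p hp => by
        obtain ⟨σ, hσ, rfl⟩ := hmem p hp
        exact (hA l).2.2.2 σ hσ⟩) hG hGi
  have hcard' : (C i).deg * D < T.card := by
    rcases Nat.eq_zero_or_pos (C i).deg with h0 | h0
    · rw [h0, zero_mul]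
      exact hTne.card_pos
    · refine lt_of_lt_of_le (Nat.mul_lt_mul_of_pos_left ?_ h0) hTc
      omega
  have hvan := van (D := D) (x := y) (C i) T (fun p hp => ⟨hTon p hp, by
    obtain ⟨σ, _, h⟩ := hmem p (hTS hp)
    exact ⟨σ, h.symm⟩⟩) hcard'
  have hcE : CharZero (C i).E :=
    charZero_of_injective_algebraMap (algebraMap Ω (C i).E).injective
  have hB'0 : ∀ j, B' 0 j = if j = 0 then 1 else 0 := by
    intro j
    have h5 := congrFun (congrFun hBB' 0) j
    rw [Matrix.mul_apply, Matrix.one_apply, Finset.sum_eq_single 0] at h5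
    · rw [hB0, if_pos rfl, one_mul] at h5
      rw [h5]
      simp only [eq_comm]
    · intro l _ hl
      rw [hB0, if_neg hl, zero_mul]
    · intro h
      exact absurd (Finset.mem_univ _) h
  refine ⟨C i, act B' (C i).X, B 1, ?_, adjoin_act hBB' (C i).good.gen, ?_, hgi, ?_⟩
  · unfold act
    rw [Finset.sum_eq_single 0]
    · rw [hB'0, if_pos rfl, (C i).good.one]
      simp
    · intro j _ hj
      rw [hB'0, if_neg hj]
      simp
    · intro h
      exact absurd (Finset.mem_univ _) h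
  · have h5 : act B (act B' (C i).X) = (C i).X := act_act hBB' _
    conv_lhs => rw [← h5]
    rfl
  · intro f d hd hf hfx
    let _ : Algebra ℂ (C i).E := ((algebraMap Ω (C i).E).comp (algebraMap ℂ Ω)).toAlgebra
    have h4 : ∀ (v : Fin (M + 2) → (C i).E) (P : MvPolynomial (Fin (M + 2)) ℂ), aeval v P =
        aeval v (map (algebraMap ℂ Ω) P) := by
      intro v P
      rw [aeval_def, aeval_def, eval₂_map]
      rfl
    rw [← h4, ← Pool.Agent.N162.HN.aeval_sub, h4]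
    refine hvan (sub B' f) ((sub_hom hf B').totalDegree_le.trans hd) ?_
    rw [Pool.Agent.N162.HN.aeval_sub, hy, act_act hB'B]
    exact hfx

end Pool.Agent.L5helper25.GC
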