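import Pool.Agent.L5helper25.GC.Frm
import Pool.Agent.N95.LQ.Log

/-!
Canonical forms on the closed subvarieties of generic projective pairs, and the separation of points.
-/

set_option autoImplicit false
set_option linter.unusedSectionVars false
set_option linter.overlappingInstances false

open FF IntermediateField Pool.Agent.N162.BC

namespace Pool.Agent.L5helper25.GC

open Pool.Agent.N95.LQ
open Pool.Agent.W602.GT

/-- different points are separated by a linear form -/
theorem exists_lin {K Ω : Type} [Field K] [Algebra ℂ K] [Field Ω] [Algebra ℂ Ω] {n : ℕ}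
    {x : Fin (n + 1) → K} {c0 : Fin (n + 1)} (hc0 : x c0 ≠ 0)
    (hgen : IntermediateField.adjoin ℂ (Set.range fun j => x j / x c0) = ⊤)
    (ρ σ : K →ₐ[ℂ] Ω) : ∃ l : Fin (n + 1) → Ω,
      (σ ≠ ρ → ∑ i, l i * σ (x i / x c0) = 0) ∧ ∑ i, l i * ρ (x i / x c0) ≠ 0 := by
  classical
  by_cases h : σ = ρ
  · refine ⟨Pi.single c0 1, fun h' => absurd h h', ?_⟩
    rw [Finset.sum_eq_single c0]
    · rw [Pi.single_eq_same, div_self hc0, map_one, one_mul]
      exact one_ne_zero
    · intro j _ hj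
      rw [Pi.single_eq_of_ne hj, zero_mul]
    · intro h1
      exact absurd (Finset.mem_univ _) h1
  · obtain ⟨j, hj⟩ : ∃ j, σ (x j / x c0) ≠ ρ (x j / x c0) := by
      by_contra hcon
      push Not at hcon
      apply h
      ext a
      have ha : a ∈ IntermediateField.adjoin ℂ (Set.range fun j => x j / x c0) := by
        rw [hgen]
        trivial
      induction ha using IntermediateField.adjoin_induction with
      | mem a ha =>
        obtain ⟨j, rfl⟩ := ha
        exact hcon j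
      | algebraMap c => rw [AlgHom.commutes, AlgHom.commutes]
      | add a b _ _ h1 h2 => rw [map_add, map_add, h1, h2]
      | inv a _ h1 => rw [map_inv₀, map_inv₀, h1]
      | mul a b _ _ h1 h2 => rw [map_mul, map_mul, h1, h2]
    have key : ∀ τ : K →ₐ[ℂ] Ω, ∑ i, (Pi.single j 1 - Pi.single c0 (σ (x j / x c0)) :
        Fin (n + 1) → Ω) i * τ (x i / x c0) = τ (x j / x c0) - σ (x j / x c0) := by
      intro τ
      simp only [Pi.sub_apply, sub_mul, Finset.sum_sub_distrib]
      congr 1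
      · rw [Finset.sum_eq_single j]
        · rw [Pi.single_eq_same, one_mul]
        · intro i _ hi
          rw [Pi.single_eq_of_ne hi, zero_mul]
        · intro h1
          exact absurd (Finset.mem_univ _) h1
      · rw [Finset.sum_eq_single c0]
        · rw [Pi.single_eq_same, div_self hc0, map_one, mul_one]
        · intro i _ hi
          rw [Pi.single_eq_of_ne hi, zero_mul]
        · intro h1
          exact absurd (Finset.mem_univ _) h1
    refine ⟨Pi.single j 1 - Pi.single c0 (σ (x j / x c0)), fun _ => ?_, ?_⟩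
    · rw [key, sub_self]
    · rw [key]
      exact sub_ne_zero.2 (Ne.symm hj)

/-- the monomials of degree `ex` separate `ex + 1` points -/
theorem sep_mono {K Ω : Type} [Field K] [Algebra ℂ K] [Field Ω] [Algebra ℂ Ω] {n ex : ℕ}
    {x : Fin (n + 1) → K} {c0 : Fin (n + 1)} (hc0 : x c0 ≠ 0)
    (hgen : IntermediateField.adjoin ℂ (Set.range fun j => x j / x c0) = ⊤)
    (S : Finset (K →ₐ[ℂ] Ω)) (lam : (K →ₐ[ℂ] Ω) → Ω) (hS : S.Nonempty)
    (hl : ∀ σ ∈ S, lam σ ≠ 0) (hc : S.card ≤ ex + 1) :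
    ¬ ∀ f : Fin ex → Fin (n + 1), ∑ σ ∈ S, lam σ * σ (∏ j, x (f j) / x c0) = 0 := by
  classical
  intro h
  obtain ⟨ρ, hρ⟩ := hS
  choose l hl1 hl2 using exists_lin (Ω := Ω) hc0 hgen ρ
  let T : List (K →ₐ[ℂ] Ω) := (S.erase ρ).toList
  have hT : T.length ≤ ex := by
    rw [Finset.length_toList, Finset.card_erase_of_mem hρ]
    omega
  let s : Fin ex → (K →ₐ[ℂ] Ω) := fun j => T.getD j ρ
  have hs : ∀ σ ∈ S, σ ≠ ρ → ∃ j, s j = σ := by
    intro σ hσ hne
    have h1 : σ ∈ T := Finset.mem_toList.2 (Finset.mem_erase.2 ⟨hne, hσ⟩)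
    obtain ⟨i, hi, h2⟩ := List.getElem_of_mem h1
    refine ⟨⟨i, by omega⟩, ?_⟩
    change T.getD i ρ = σ
    rw [List.getD_eq_getElem _ _ hi, h2]
  have key : ∀ σ : K →ₐ[ℂ] Ω, ∑ f : Fin ex → Fin (n + 1),
      (∏ j, l (s j) (f j)) * σ (∏ j, x (f j) / x c0) =
        ∏ j, ∑ i, l (s j) i * σ (x i / x c0) := by
    intro σ
    rw [Finset.prod_univ_sum, Fintype.piFinset_univ]
    refine Finset.sum_congr rfl fun f _ => ?_
    rw [map_prod, ← Finset.prod_mul_distrib]
  have h1 : ∑ f : Fin ex → Fin (n + 1), (∏ j, l (s j) (f j)) *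
      ∑ σ ∈ S, lam σ * σ (∏ j, x (f j) / x c0) = 0 :=
    Finset.sum_eq_zero fun f _ => by rw [h f, mul_zero]
  have h2 : ∑ f : Fin ex → Fin (n + 1), (∏ j, l (s j) (f j)) *
      ∑ σ ∈ S, lam σ * σ (∏ j, x (f j) / x c0) =
      ∑ σ ∈ S, lam σ * ∏ j, ∑ i, l (s j) i * σ (x i / x c0) := by
    simp only [Finset.mul_sum]
    rw [Finset.sum_comm]
    refine Finset.sum_congr rfl fun σ _ => ?_
    rw [← key σ, Finset.mul_sum]
    refine Finset.sum_congr rfl fun f _ => ?_
    ring
  rw [h2, Finset.sum_eq_single ρ] at h1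
  · rcases mul_eq_zero.1 h1 with h3 | h3
    · exact hl ρ hρ h3
    · obtain ⟨j, -, h4⟩ := Finset.prod_eq_zero_iff.1 h3
      exact hl2 (s j) h4
  · intro σ hσ hne
    obtain ⟨j, hj⟩ := hs σ hσ hne
    rw [Finset.prod_eq_zero (Finset.mem_univ j), mul_zero]
    rw [hj]
    exact hl1 σ hne
  · intro h3
    exact absurd hρ h3

variable {k : Type} [Field k] [Algebra k ℂ]

/-- canonical forms on the closed subvarieties -/
theorem adj_pair (X : Pair k ℂ) (hC : ∀ a, a ∈ X.C) {K : Type} [Field K] [Algebra ℂ K]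
    {x : Fin (X.n + 1) → K} (hx : X.Point x) {c0 : Fin (X.n + 1)} (hc0 : x c0 ≠ 0)
    (hgen : IntermediateField.adjoin ℂ (Set.range fun j => x j / x c0) = ⊤) {b : ℕ} (hb : 0 < b)
    (htr : Algebra.trdeg ℂ K = b) {ex : ℕ} (hd : 2 * X.m + 1 + ex ≤ X.size + b) :
    ∃ ω : (Fin b → Derivation ℂ K K) → K, IsPluri 1 ω ∧ (∃ D, ω D ≠ 0) ∧
      ∀ f : Fin ex → Fin (X.n + 1), GlobalForm b (fun D => (∏ j, x (f j) / x c0) * ω D) := by
  classical
  have hco : coords ℂ x = ⊤ := by rw [Pool.Agent.N95.LQ.coords_eq hc0, hgen]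
  have halg : Algebra.IsAlgebraic (coords ℂ x) K := by
    rw [hco]
    infer_instance
  obtain ⟨ω, h1, h2, h3⟩ := Pool.Agent.N111.GI.twisted (ex := ex) X.V X.V_form X.V_dim X.C hb hd
    X.F X.F_form X.I₀ X.coeff_ne X.generic.algebraicClosure htr hc0 halg hx.mem_V hx.mem_C
    hx.notMem
  refine ⟨ω, h1, h2, fun f => ⟨fun A D => ?_, fun P hP => (h3 f P hP).2 ?_⟩⟩
  · change (∏ j, x (f j) / x c0) * ω _ = A.det ^ 1 * ((∏ j, x (f j) / x c0) * ω D)
    rw [h1 A D]
    ring
  · rintro ⟨b, hb, -⟩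
    exact hb (hC b)

/-- **Forms on the varieties with multi-valued maps.** -/
theorem pair_forms (X : Pair k ℂ) (hC : ∀ a, a ∈ X.C) {L E : Type} [Field L] [Algebra ℂ L]
    [Algebra.EssFiniteType ℂ L] [Field E] [Algebra ℂ E] [Algebra L E] [IsScalarTower ℂ L E]
    [FiniteDimensional L E] {w : ℕ} (hL : Algebra.trdeg ℂ L = w) {x : Fin (X.n + 1) → E}
    (hx : X.Point x) {b : ℕ} (hb : 0 < b) (htr : Algebra.trdeg ℂ (coords ℂ x) = b) {q : ℕ}
    (hd : 2 * X.m + q * Module.finrank L E ≤ X.size + b) :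
    ∃ η : Fin q → AlternatingMap L (Derivation ℂ L L) L (Fin b), LinearIndependent ℂ η ∧
      ∀ j, ∀ P : Place ℂ L, Divisorial w P → ∀ D : Fin b → Derivation ℂ L L,
        (∀ i, DerReg P (D i)) → P.Reg (η j D) := by
  classical
  rcases Nat.eq_zero_or_pos q with rfl | hq
  · exact ⟨fun j => j.elim0, linearIndependent_empty_type, fun j => j.elim0⟩
  have hr : 0 < Module.finrank L E := Module.finrank_pos
  have hqr : 0 < q * Module.finrank L E := Nat.mul_pos hq hr
  obtain ⟨c0, hc0'⟩ := Function.ne_iff.1 hx.ne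
  have hc0 : x c0 ≠ 0 := hc0'
  let x0 : Fin (X.n + 1) → coords ℂ x := fun j =>
    ⟨x j / x c0, by rw [Pool.Agent.N95.LQ.coords_eq hc0]; exact subset_adjoin ℂ _ ⟨j, rfl⟩⟩
  have h0c : x0 c0 = 1 := Subtype.ext (div_self hc0)
  have h00 : x0 c0 ≠ 0 := by rw [h0c]; exact one_ne_zero
  have hdiv : (fun j => x0 j / x0 c0) = x0 := by
    funext j
    rw [h0c, div_one]
  have hpt : X.Point x0 := by
    rw [← Pair.point_map (coords ℂ x).val]
    have h1 := hx.smul (inv_ne_zero hc0)
    have h2 : (fun j => (x c0)⁻¹ * x j) = fun j => (coords ℂ x).val (x0 j) := by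
      funext j
      change _ = x j / x c0
      rw [div_eq_inv_mul]
    rw [h2] at h1
    exact h1
  have hgen0 : IntermediateField.adjoin ℂ (Set.range x0) = ⊤ := by
    apply IntermediateField.map_injective (coords ℂ x).val
    rw [← AlgHom.fieldRange_eq_map, IntermediateField.fieldRange_val,
      IntermediateField.adjoin_map, ← Set.range_comp]
    exact (Pool.Agent.N95.LQ.coords_eq hc0).symm
  have hgen : IntermediateField.adjoin ℂ (Set.range fun j => x0 j / x0 c0) = ⊤ := by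
    rw [hdiv]
    exact hgen0
  have hess : Algebra.EssFiniteType ℂ (coords ℂ x) := Pool.Agent.N111.GJ.ess_of_adjoin hgen0
  obtain ⟨ω, h1, h2, h3⟩ := adj_pair X hC hpt h00 hgen hb htr
    (ex := q * Module.finrank L E - 1) (by omega)
  exact forms_gen (N := q * Module.finrank L E) (K := coords ℂ x) (R := E) htr hb h1 h2
    (fun f : Fin (q * Module.finrank L E - 1) → Fin (X.n + 1) => ∏ j, x0 (f j) / x0 c0) h3
    (fun Ω _ _ _ S lam hS hl hc => sep_mono h00 hgen S lam hS hl (by omega)) hL le_rfl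

end Pool.Agent.L5helper25.GC
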