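import Pool.Agent.L5helper25.GC.Sep

/-!
Multi-valued maps to generic projective pairs.
-/

set_option autoImplicit false
set_option linter.unusedSectionVars false
set_option linter.overlappingInstances false

open FF IntermediateField Pool.Agent.N162.BC

namespace Pool.Agent.L5helper25.GC

open Pool.Agent.N95.LQ
open Pool.Agent.W602.GT

open scoped IntermediateField.algebraAdjoinAdjoin in
/-- a field that is algebraic over the field generated by `d` elements has transcendence degree at
most `d` -/
theorem trdeg_le_fin {K F : Type} [Field K] [Field F] [Algebra K F] (s : Finset F) {d : ℕ}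
    (hs : s.card ≤ d) (h : Algebra.IsAlgebraic (IntermediateField.adjoin K (s : Set F)) F) :
    Algebra.trdeg K F ≤ d := by
  have h1 : Algebra.IsAlgebraic (Algebra.adjoin K (s : Set F)) F := by
    have h2 : IsFractionRing (Algebra.adjoin K (s : Set F))
        (IntermediateField.adjoin K (s : Set F)) := inferInstance
    exact (IsFractionRing.comap_isAlgebraic_iff (A := Algebra.adjoin K (s : Set F))
      (K := IntermediateField.adjoin K (s : Set F))).2 h
  obtain ⟨t, ht, hB⟩ := exists_isTranscendenceBasis_subset (R := K) (s : Set F)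
  rw [← hB.cardinalMk_eq_trdeg]
  have h3 : Cardinal.mk t ≤ Cardinal.mk (s : Set F) := Cardinal.mk_le_mk_of_subset ht
  have h4 : Cardinal.mk (s : Set F) = s.card := Cardinal.mk_coe_finset
  refine h3.trans ?_
  rw [h4]
  exact_mod_cast hs

variable {k : Type} [Field k] [Algebra k ℂ]

/-- the dimension of a subvariety of the pair -/
theorem dim_le_m (X : Pair k ℂ) {K : Type} [Field K] [Algebra ℂ K] {x : Fin (X.n + 1) → K}
    (hx : X.Point x) {c0 : Fin (X.n + 1)} (h0c : x c0 = 1)
    (hgen : IntermediateField.adjoin ℂ (Set.range x) = ⊤) : Algebra.trdeg ℂ K ≤ X.m := by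
  classical
  have hst : IsScalarTower (algebraicClosure k ℂ) ℂ K := inferInstance
  have h1 := X.V_dim K x hx.ne (fun f hf => by
    have h2 := hx.mem_V f hf
    rwa [MvPolynomial.aeval_map_algebraMap] at h2)
  obtain ⟨I, hI, hI2⟩ := Pool.Agent.TH145.MG.exists_basis x c0 h0c h1
  refine trdeg_le_fin (I.image x) (Finset.card_image_le.trans hI) ?_
  have h3 : ∀ i, x i ∈ algebraicClosure (IntermediateField.adjoin ℂ ((I.image x : Finset K) : Set K))
      K := by
    intro i
    have h4 := hI2 i
    rw [Pool.Agent.TH145.MG.mem_cl] at h4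
    rw [mem_algebraicClosure_iff]
    obtain ⟨p, hp0, hp⟩ := h4
    have hle : ∀ a : K, a ∈ IntermediateField.adjoin (algebraicClosure k ℂ)
        (x '' (I : Set (Fin (X.n + 1)))) →
        a ∈ IntermediateField.adjoin ℂ ((I.image x : Finset K) : Set K) := by
      intro a ha
      induction ha using IntermediateField.adjoin_induction with
      | mem a ha => exact IntermediateField.subset_adjoin _ _ (by simpa using ha)
      | algebraMap c =>
        rw [IsScalarTower.algebraMap_apply (algebraicClosure k ℂ) ℂ K]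
        exact IntermediateField.algebraMap_mem _ _
      | add a b _ _ h1 h2 => exact add_mem h1 h2
      | inv a _ h1 => exact inv_mem h1
      | mul a b _ _ h1 h2 => exact mul_mem h1 h2
    let φ : IntermediateField.adjoin (algebraicClosure k ℂ) (x '' (I : Set (Fin (X.n + 1)))) →+*
        IntermediateField.adjoin ℂ ((I.image x : Finset K) : Set K) :=
      { toFun := fun a => ⟨a.1, hle a.1 a.2⟩
        map_one' := rfl
        map_zero' := rfl
        map_add' := fun _ _ => rfl
        map_mul' := fun _ _ => rfl }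
    refine ⟨p.map φ, (Polynomial.map_ne_zero_iff φ.injective).2 hp0, ?_⟩
    rw [Polynomial.aeval_def, Polynomial.eval₂_map]
    exact hp
  have h5 : IntermediateField.adjoin ℂ (Set.range x) ≤ (algebraicClosure
      (IntermediateField.adjoin ℂ ((I.image x : Finset K) : Set K)) K).restrictScalars ℂ := by
    rw [IntermediateField.adjoin_le_iff]
    rintro _ ⟨i, rfl⟩
    exact h3 i
  rw [hgen] at h5
  exact ⟨fun a => mem_algebraicClosure_iff.1 (h5 (IntermediateField.mem_top (x := a)))⟩

/-- the field generated by the ratios of the coordinates, in a subfield -/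
theorem coords_map {E F : Type} [Field E] [Algebra ℂ E] [Field F] [Algebra ℂ F] (ψ : E →ₐ[ℂ] F)
    {n : ℕ} {x : Fin (n + 1) → E} {c0 : Fin (n + 1)} (hc0 : x c0 ≠ 0) :
    (coords ℂ x).map ψ = coords ℂ fun i => ψ (x i) := by
  have h1 : ψ (x c0) ≠ 0 := (map_ne_zero_iff ψ ψ.injective).2 hc0
  rw [Pool.Agent.N95.LQ.coords_eq hc0, Pool.Agent.N95.LQ.coords_eq h1,
    IntermediateField.adjoin_map, ← Set.range_comp]
  congr 2
  funext j
  exact map_div₀ ψ _ _

/-- scaling does not change the field -/
theorem coords_smul {E : Type} [Field E] [Algebra ℂ E] {n : ℕ} {x : Fin (n + 1) → E}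
    {c0 : Fin (n + 1)} (hc0 : x c0 ≠ 0) : coords ℂ (fun j => x j / x c0) = coords ℂ x := by
  have h1 : (fun j => x j / x c0) c0 ≠ 0 := by
    change x c0 / x c0 ≠ 0
    rw [div_self hc0]
    exact one_ne_zero
  rw [Pool.Agent.N95.LQ.coords_eq hc0, Pool.Agent.N95.LQ.coords_eq h1]
  congr 2
  funext j
  change x j / x c0 / (x c0 / x c0) = x j / x c0
  rw [div_self hc0, div_one]

/-- the dimension of the image -/
theorem trdeg_coords_le {L Ω : Type} [Field L] [Algebra ℂ L] [Field Ω] [Algebra ℂ Ω] [Algebra L Ω]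
    [IsScalarTower ℂ L Ω] {w : ℕ} (hL : Algebra.trdeg ℂ L = w) {n : ℕ} (x : Fin (n + 1) → Ω)
    (hfin : FiniteDimensional L (coords L x)) : Algebra.trdeg ℂ (coords ℂ x) ≤ w := by
  have hle : ∀ a ∈ coords ℂ x, a ∈ coords L x := by
    have h1 : coords ℂ x ≤ (coords L x).restrictScalars ℂ := by
      unfold coords
      rw [IntermediateField.adjoin_le_iff]
      exact fun a ha => subset_adjoin L _ ha
    exact fun a ha => h1 ha
  let φ : coords ℂ x →ₐ[ℂ] coords L x :=
    { toFun := fun a => ⟨a.1, hle a.1 a.2⟩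
      map_one' := rfl
      map_zero' := rfl
      map_add' := fun _ _ => rfl
      map_mul' := fun _ _ => rfl
      commutes' := fun c => rfl }
  have h2 : Algebra.trdeg ℂ (coords L x) = w := Pool.Agent.Y172.trdeg_up (K := L) hL
  rw [← h2]
  exact _root_.trdeg_le_of_injective φ φ.injective

/-- **Multi-valued maps.** -/
theorem valued_forms (X : Pair k ℂ) (hC : ∀ a, a ∈ X.C) {L Ω : Type} [Field L] [Algebra ℂ L]
    [Algebra.EssFiniteType ℂ L] [Field Ω] [Algebra ℂ Ω] [Algebra L Ω] [IsScalarTower ℂ L Ω]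
    {w : ℕ} (hL : Algebra.trdeg ℂ L = w) {x : Fin (X.n + 1) → Ω} (hx : X.Point x) {r : ℕ}
    (hfin : FiniteDimensional L (coords L x)) (hr : Module.finrank L (coords L x) ≤ r)
    {b : ℕ} (htr : Algebra.trdeg ℂ (coords ℂ x) = b) :
    b ≤ X.m ∧ b ≤ w ∧ (0 < b → ∀ q : ℕ, 2 * X.m + q * r ≤ X.size + b →
    ∃ η : Fin q → AlternatingMap L (Derivation ℂ L L) L (Fin b), LinearIndependent ℂ η ∧
      ∀ j, ∀ P : Place ℂ L, Divisorial w P → ∀ D : Fin b → Derivation ℂ L L,
        (∀ i, DerReg P (D i)) → P.Reg (η j D)) := by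
  classical
  obtain ⟨c0, hc0'⟩ := Function.ne_iff.1 hx.ne
  have hc0 : x c0 ≠ 0 := hc0'
  let E := coords L x
  let x1 : Fin (X.n + 1) → E := fun j => ⟨x j / x c0, subset_adjoin L _ ⟨j, c0, hc0, rfl⟩⟩
  let ψ : E →ₐ[ℂ] Ω := E.val.restrictScalars ℂ
  have h1c : x1 c0 = 1 := Subtype.ext (div_self hc0)
  have h10 : x1 c0 ≠ 0 := by rw [h1c]; exact one_ne_zero
  have hpt : X.Point x1 := by
    rw [← Pair.point_map ψ]
    have h1 := hx.smul (inv_ne_zero hc0)
    have h2 : (fun j => (x c0)⁻¹ * x j) = fun j => ψ (x1 j) := by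
      funext j
      change _ = x j / x c0
      rw [div_eq_inv_mul]
    rw [h2] at h1
    exact h1
  have hmap : (coords ℂ x1).map ψ = coords ℂ x := by
    rw [coords_map ψ h10]
    exact coords_smul hc0
  have htr1 : Algebra.trdeg ℂ (coords ℂ x1) = b := by
    rw [← htr, ← hmap]
    exact ((coords ℂ x1).equivMap ψ).trdeg_eq
  have hb1 : b ≤ w := by
    have h1 : Algebra.trdeg ℂ (coords ℂ x1) ≤ Algebra.trdeg ℂ E :=
      _root_.trdeg_le_of_injective (coords ℂ x1).val (coords ℂ x1).val.injective
    have h2 : Algebra.trdeg ℂ E = w := Pool.Agent.Y172.trdeg_up (K := L) hL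
    rw [htr1, h2] at h1
    exact_mod_cast h1
  have hb2 : b ≤ X.m := by
    let x0 : Fin (X.n + 1) → coords ℂ x1 := fun j =>
      ⟨x1 j, by
        rw [Pool.Agent.N95.LQ.coords_eq h10]
        refine subset_adjoin ℂ _ ⟨j, ?_⟩
        change x1 j / x1 c0 = x1 j
        rw [h1c, div_one]⟩
    have h0c : x0 c0 = 1 := Subtype.ext h1c
    have hpt0 : X.Point x0 := by
      rw [← Pair.point_map (coords ℂ x1).val]
      exact hpt
    have hgen0 : IntermediateField.adjoin ℂ (Set.range x0) = ⊤ := by
      apply IntermediateField.map_injective (coords ℂ x1).val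
      rw [← AlgHom.fieldRange_eq_map, IntermediateField.fieldRange_val,
        IntermediateField.adjoin_map, ← Set.range_comp]
      have h3 : (fun j => x1 j / x1 c0) = x1 := by
        funext j
        rw [h1c, div_one]
      have h4 := Pool.Agent.N95.LQ.coords_eq (K := ℂ) h10
      rw [h3] at h4
      exact h4.symm
    have h5 := dim_le_m X hpt0 h0c hgen0
    rw [htr1] at h5
    exact_mod_cast h5
  refine ⟨hb2, hb1, fun hb q hd => ?_⟩
  exact pair_forms X hC (E := E) hL hpt hb htr1
    (le_trans (Nat.add_le_add_left (Nat.mul_le_mul_left q hr) _) hd)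

end Pool.Agent.L5helper25.GC
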